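import Pool.Agent.N837.LP.GenM

set_option autoImplicit false

/-!
# Even numbers all of whose multiples up to `J N` miss a prescribed set of `A log X` primes

For all `J`, `A ≥ 1` and `0 < η ≤ 1`, for every large `X` and EVERY set `P` of at most `A log X` primes up
to `X / 2`, for a positive proportion of the even `N` in `(X, X + X ^ η]` none of the numbers `j N - p`,
`1 ≤ j ≤ J`, `p ∈ P`, is prime.
-/

namespace Pool.Agent.Results.MP_61161c_nt.AllMultiples

theorem result : ∃ C : ℝ, 0 < C ∧ ∀ (J : ℕ) (A η : ℝ), 1 ≤ J → 1 ≤ A → 0 < η → η ≤ 1 →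
    ∃ X₀ : ℝ, ∀ X : ℝ, X₀ ≤ X → ∀ P : Finset ℕ, (∀ p ∈ P, p.Prime ∧ (p : ℝ) ≤ X / 2) →
    (P.card : ℝ) ≤ A * Real.log X →
    X ^ η * Real.exp (-Real.exp (C * J ^ 2 * A / η)) ≤
      (({N : ℕ | Even N ∧ X < N ∧ (N : ℝ) ≤ X + X ^ η ∧
        ∀ j : ℕ, 1 ≤ j → j ≤ J → ∀ p ∈ P, ¬ (j * N - p).Prime}).ncard : ℝ) := by
  classical
  obtain ⟨C, hC, h⟩ := Pool.Agent.N837.LP.genM 1 one_pos
  refine ⟨C, hC, fun J A η hJ hA hη hη1 => ?_⟩
  have hJR : (1:ℝ) ≤ J := by exact_mod_cast hJ
  obtain ⟨X₀, hX₀⟩ := h J (J * A) η hJ (by nlinarith) hη hη1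
  refine ⟨max X₀ 16, fun X hX P hP hPc => ?_⟩
  have hX16 : 16 ≤ X := (le_max_right _ _).trans hX
  have hX0 : 0 < X := by linarith
  set F : Finset (ℕ × ℤ) := (((Finset.Icc 1 J) ×ˢ P).filter (fun s => ¬ s.2 ∣ s.1)).image
    (fun s => (s.1, -(s.2 : ℤ))) with hF
  have hFc : (F.card : ℝ) ≤ J * A * Real.log X := by
    have e1 : F.card ≤ J * P.card := by
      refine Finset.card_image_le.trans ((Finset.card_filter_le _ _).trans ?_)
      rw [Finset.card_product, Nat.card_Icc]
      simp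
    have e2 : (F.card : ℝ) ≤ J * P.card := by exact_mod_cast e1
    calc (F.card : ℝ) ≤ J * P.card := e2
      _ ≤ J * (A * Real.log X) := mul_le_mul_of_nonneg_left hPc (by linarith)
      _ = _ := by ring
  have h1 := hX₀ X ((le_max_left _ _).trans hX) F hFc
    (by
      intro s hs
      rw [hF, Finset.mem_image] at hs
      obtain ⟨⟨j, p⟩, hz, rfl⟩ := hs
      rw [Finset.mem_filter, Finset.mem_product, Finset.mem_Icc] at hz
      obtain ⟨⟨⟨hj1, hj2⟩, hp⟩, hpj⟩ := hz
      simp only at hj1 hj2 hp hpj ⊢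
      refine ⟨hj1, hj2, ?_, ?_⟩
      · apply IsCoprime.neg_right
        rw [Nat.isCoprime_iff_coprime]
        exact ((Nat.Prime.coprime_iff_not_dvd (hP p hp).1).2 hpj).symm
      · push_cast
        rw [abs_neg, abs_of_nonneg (Nat.cast_nonneg _)]
        exact (hP p hp).2) 0
  have h2 : C * J * (J * A) / η = C * J ^ 2 * A / η := by ring
  rw [h2] at h1
  refine h1.trans (Nat.cast_le.2 (Set.ncard_le_ncard ?_ ?_))
  · intro n hn
    obtain ⟨q1, q2, q3, q4⟩ := hn
    refine ⟨?_, q1, q2, fun j hj1 hj2 p hp hprime => ?_⟩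
    · have e1 : (n : ℤ) % 2 = 0 := by simpa using q3
      have e2 : n % 2 = 0 := by omega
      exact Nat.even_iff.2 e2
    · have hpR := (hP p hp).2
      have hnj : n ≤ j * n := Nat.le_mul_of_pos_left n (by omega)
      have hpn : (p : ℝ) + X / 2 < n := by linarith
      have hpn2 : 2 * p < n := by
        have : 2 * (p : ℝ) < n := by linarith
        exact_mod_cast this
      have hlt : p < j * n := by omega
      by_cases hpj : p ∣ j
      · have g5 : p ∣ j * n - p := Nat.dvd_sub (hpj.mul_right n) (dvd_refl p)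
        rcases (Nat.dvd_prime hprime).1 g5 with e4 | e4
        · exact (hP p hp).1.one_lt.ne' e4
        · omega
      · obtain ⟨l, p1, p2, p3, p4⟩ := q4 (j, -(p : ℤ)) (by
          rw [hF, Finset.mem_image]
          refine ⟨(j, p), ?_, rfl⟩
          rw [Finset.mem_filter, Finset.mem_product, Finset.mem_Icc]
          exact ⟨⟨⟨hj1, hj2⟩, hp⟩, hpj⟩)
        simp only at p3 p4
        have e1 : ((j * n - p : ℕ) : ℤ) = (j : ℤ) * n + -(p : ℤ) := by
          rw [Nat.cast_sub hlt.le]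
          push_cast
          ring
        rw [← e1] at p3 p4
        have p5 : l ∣ j * n - p := by exact_mod_cast p3
        have p6 : l < j * n - p := by exact_mod_cast p4
        rcases (Nat.dvd_prime hprime).1 p5 with e4 | e4
        · exact p1.one_lt.ne' e4
        · omega
  · apply (Set.finite_Iic ⌊X + X ^ η⌋₊).subset
    intro a ha
    obtain ⟨_, _, h2, _⟩ := ha
    rw [Set.mem_Iic]
    exact Nat.le_floor h2

end Pool.Agent.Results.MP_61161c_nt.AllMultiples
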