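import Mathlib
import Pool.Agent.R528.RM.GoldQ

set_option autoImplicit false

/-!
# Goldbach's problem in every sequential random model of the primes

The question is whether every even `n ≥ 8` is a sum of two distinct odd primes.  We answer it for
all large even `n`, with the asymptotic number of representations, in EVERY sequential random model
of the primes: the integers are decided one after the other, no multiple of a prime from a fixed
finite set `Q` is chosen, and the conditional probability of choosing `n + 1` (not divisible by the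
primes of `Q`) given the past is asymptotic to `∏_{p ∈ Q} (1 - 1/p)⁻¹ / log n`.  No independence and
no rate is assumed.
-/

open MeasureTheory Filter
open scoped Topology

namespace Pool.Agent.Results.MP_61161c_nt.SequentialModels

/-- the ordered representations of `n` as a sum of two distinct elements of `S` -/
def reps (S : Set ℕ) (n : ℕ) : Set (ℕ × ℕ) :=
  {v | v.1 ∈ S ∧ v.2 ∈ S ∧ v.1 ≠ v.2 ∧ v.1 + v.2 = n}

/-- the singular series of Hardy and Littlewood for Goldbach's problem, restricted to the primes in `Q` -/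
noncomputable def sing (Q : Finset ℕ) (n : ℕ) : ℝ :=
  ∏ p ∈ Q, (1 - (if p ∣ n then 1 else 2 : ℝ) / p) / (1 - 1 / (p : ℝ)) ^ 2

/-- the value at a prime of the lower bound for the singular series at even integers -/
noncomputable def low (p : ℕ) : ℝ := if p = 2 then 2 else 1 - 2 / p

lemma low_pos {p : ℕ} (hp : p.Prime) : 0 < low p := by
  unfold low
  split_ifs with h
  · norm_num
  · have h3 : 3 ≤ p := by
      have := hp.two_le
      omega
    have h4 : (3 : ℝ) ≤ p := by exact_mod_cast h3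
    have : 2 / (p : ℝ) ≤ 2 / 3 := div_le_div_of_nonneg_left (by norm_num) (by norm_num) h4
    linarith

lemma sing_low (Q : Finset ℕ) (hQ : ∀ p ∈ Q, p.Prime) (n : ℕ) (hn : Even n) : ∏ p ∈ Q, low p ≤ sing Q n := by
  unfold sing
  refine Finset.prod_le_prod (fun p hp => (low_pos (hQ p hp)).le) fun p hp => ?_
  have hpr := hQ p hp
  unfold low
  split_ifs with h h2 h2
  · rw [h]; norm_num
  · exact absurd (h ▸ hn.two_dvd) h2
  · have h3 : (3 : ℝ) ≤ p := by
      have := hpr.two_le
      exact_mod_cast (by omega : 3 ≤ p)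
    have h4 : 0 < 1 - 1 / (p : ℝ) := by
      have : 1 / (p : ℝ) ≤ 1 / 3 := div_le_div_of_nonneg_left (by norm_num) (by norm_num) h3
      linarith
    have h5 : 1 - 1 / (p : ℝ) ≤ 1 := by
      have : 0 < 1 / (p : ℝ) := by positivity
      linarith
    rw [le_div_iff₀ (by positivity)]
    have h6 : 0 < 1 / (p : ℝ) := by positivity
    have h7 : 2 / (p : ℝ) = 2 * (1 / p) := by ring
    have h8 : (1 - 1 / (p : ℝ)) ^ 2 ≤ 1 := pow_le_one₀ h4.le h5
    rw [h7]
    have h9 : 0 ≤ 1 - 2 * (1 / (p : ℝ)) := by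
      have : 1 / (p : ℝ) ≤ 1 / 3 := div_le_div_of_nonneg_left (by norm_num) (by norm_num) h3
      linarith
    have h10 := mul_le_mul_of_nonneg_left h8 h9
    linarith
  · have h3 : (3 : ℝ) ≤ p := by
      have := hpr.two_le
      exact_mod_cast (by omega : 3 ≤ p)
    have h4 : 0 < 1 - 1 / (p : ℝ) := by
      have : 1 / (p : ℝ) ≤ 1 / 3 := div_le_div_of_nonneg_left (by norm_num) (by norm_num) h3
      linarith
    have h5 : 1 - 1 / (p : ℝ) ≤ 1 := by
      have : 0 < 1 / (p : ℝ) := by positivity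
      linarith
    rw [le_div_iff₀ (by positivity)]
    have h8 : (1 - 1 / (p : ℝ)) ^ 2 ≤ 1 := pow_le_one₀ h4.le h5
    have h9 : 0 ≤ 1 - 2 / (p : ℝ) := by
      have : 2 / (p : ℝ) ≤ 2 / 3 := div_le_div_of_nonneg_left (by norm_num) (by norm_num) h3
      linarith
    have h10 := mul_le_mul_of_nonneg_left h8 h9
    linarith

lemma reps_eq {S : Set ℕ} (n : ℕ) [DecidablePred (· ∈ S)] :
    reps S n = (fun j => (j, n - j)) ''
      (((Finset.range (n + 1)).filter (fun j => j ∈ S ∧ n - j ∈ S ∧ j ≠ n - j) : Finset ℕ) : Set ℕ) := by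
  ext ⟨a, b⟩
  rw [Set.mem_image]
  unfold reps
  simp only [Set.mem_ofPred_eq, Finset.coe_filter, Finset.mem_range, Prod.mk.injEq]
  constructor
  · rintro ⟨h1, h2, h3, h4⟩
    refine ⟨a, ⟨by omega, h1, ?_, ?_⟩, rfl, by omega⟩
    · rwa [show n - a = b by omega]
    · rwa [show n - a = b by omega]
  · rintro ⟨j, ⟨h1, h2, h3, h4⟩, rfl, rfl⟩
    exact ⟨h2, h3, h4, by omega⟩

open Pool.Agent.R528.RM in
lemma reps_gold {Ω : Type} (A : ℕ → Set Ω) (n : ℕ) (ω : Ω) :
    ((reps {k | ω ∈ A k} n).ncard : ℝ) ≤ gold A n ω ∧ gold A n ω ≤ (reps {k | ω ∈ A k} n).ncard + 1 := by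
  classical
  set S : Set ℕ := {k | ω ∈ A k} with hS
  have hinj : Function.Injective (fun j : ℕ => (j, n - j)) := fun a b h => (Prod.mk.inj h).1
  rw [reps_eq, Set.ncard_image_of_injective _ hinj, Set.ncard_coe_finset]
  have h1 : gold A n ω = (((Finset.range (n + 1)).filter (fun j => j ∈ S ∧ n - j ∈ S)).card : ℝ) := by
    unfold gold
    rw [Finset.card_filter]
    push_cast
    refine Finset.sum_congr rfl fun j _ => ?_
    unfold In
    by_cases a : ω ∈ A j
    · by_cases b : ω ∈ A (n - j)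
      · simp [a, b, hS]
      · simp [a, b, hS]
    · simp [a, hS]
  rw [h1]
  constructor
  · have : ((Finset.range (n + 1)).filter (fun j => j ∈ S ∧ n - j ∈ S ∧ j ≠ n - j)).card ≤
        ((Finset.range (n + 1)).filter (fun j => j ∈ S ∧ n - j ∈ S)).card := by
      apply Finset.card_le_card
      intro j hj
      rw [Finset.mem_filter] at hj ⊢
      exact ⟨hj.1, hj.2.1, hj.2.2.1⟩
    exact_mod_cast this
  · have : ((Finset.range (n + 1)).filter (fun j => j ∈ S ∧ n - j ∈ S)).card ≤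
        ((Finset.range (n + 1)).filter (fun j => j ∈ S ∧ n - j ∈ S ∧ j ≠ n - j)).card + 1 := by
      have h2 : (Finset.range (n + 1)).filter (fun j => j ∈ S ∧ n - j ∈ S) ⊆
          insert (n / 2) ((Finset.range (n + 1)).filter (fun j => j ∈ S ∧ n - j ∈ S ∧ j ≠ n - j)) := by
        intro j hj
        rw [Finset.mem_insert]
        rw [Finset.mem_filter, Finset.mem_range] at hj
        by_cases h3 : j = n - j
        · left
          omega
        · right
          rw [Finset.mem_filter, Finset.mem_range]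
          exact ⟨hj.1, hj.2.1, hj.2.2, h3⟩
      exact (Finset.card_le_card h2).trans (Finset.card_insert_le _ _)
    exact_mod_cast this

end Pool.Agent.Results.MP_61161c_nt.SequentialModels

open Pool.Agent.Results.MP_61161c_nt.SequentialModels

/-- Let `A n` be the event that `n` belongs to a random set adapted to a filtration `ℱ`, let `Q` be
a finite set of primes, let no multiple of a prime in `Q` be chosen, and let the conditional
probability of `A (n + 1)` given `ℱ n`, times `log n`, tend to `∏_{p ∈ Q} (1 - 1/p)⁻¹` along the `n`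
with `n + 1` not divisible by a prime in `Q`, almost surely.  Let `R(n)` be the number of ordered
representations of `n` as a sum of two distinct chosen integers and `S(n)` the singular series
restricted to `Q`.  (1) Almost surely `R(n) (log n)² / n - S(n) → 0` as `n → ∞`.  (2) `S(n)` is at
least the positive constant `2 ∏_{p ∈ Q, p ≠ 2} (1 - 2/p)` (half of it if `2 ∉ Q`) for even `n`.
(3) Almost surely every large even `n` is a sum of two distinct chosen integers, odd if `2 ∈ Q`, in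
at least `(∏_{p ∈ Q} low p / 2) n / (log n)²` ways. -/
theorem Pool.Agent.Results.MP_61161c_nt.SequentialModels.result
    {Ω : Type} [mΩ : MeasurableSpace Ω] (μ : Measure Ω) [IsProbabilityMeasure μ]
    (ℱ : Filtration ℕ mΩ) (A : ℕ → Set Ω) (hA : ∀ n, MeasurableSet[ℱ n] (A n))
    (Q : Finset ℕ) (hQ : ∀ p ∈ Q, p.Prime) (hcop : ∀ n, (∃ p ∈ Q, p ∣ n) → A n = ∅)
    (hd : ∀ᵐ ω ∂μ, Tendsto (fun n : ℕ =>
      (μ[(A (n + 1)).indicator (fun _ => (1 : ℝ)) | ℱ n]) ω * Real.log n)
      (atTop ⊓ 𝓟 {n : ℕ | ∀ p ∈ Q, ¬ p ∣ n + 1}) (𝓝 (∏ p ∈ Q, (1 - 1 / (p : ℝ))⁻¹))) :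
    (∀ᵐ ω ∂μ, Tendsto (fun n : ℕ =>
      ((reps {k : ℕ | ω ∈ A k} n).ncard : ℝ) * Real.log n ^ 2 / n - sing Q n) atTop (𝓝 0)) ∧
    (0 < ∏ p ∈ Q, low p ∧ ∀ n : ℕ, Even n → ∏ p ∈ Q, low p ≤ sing Q n) ∧
    (∀ᵐ ω ∂μ, ∀ᶠ n : ℕ in atTop, Even n →
      (∏ p ∈ Q, low p) / 2 * (n / Real.log n ^ 2) ≤ (reps {k : ℕ | ω ∈ A k} n).ncard ∧
      ∃ p q : ℕ, ω ∈ A p ∧ ω ∈ A q ∧ p ≠ q ∧ n = p + q ∧ (2 ∈ Q → Odd p ∧ Odd q)) := by
  have hlow : 0 < ∏ p ∈ Q, low p := Finset.prod_pos fun p hp => low_pos (hQ p hp)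
  have h1 : ∀ᵐ ω ∂μ, Tendsto (fun n : ℕ =>
      ((reps {k : ℕ | ω ∈ A k} n).ncard : ℝ) * Real.log n ^ 2 / n - sing Q n) atTop (𝓝 0) := by
    filter_upwards [Pool.Agent.R528.RM.gold_sieved (μ := μ) hA Q hQ hcop hd] with ω hω
    have h2 : Tendsto (fun n : ℕ => Real.log n ^ 2 / (n : ℝ)) atTop (𝓝 0) := by
      have h6 : Tendsto (fun x : ℝ => Real.log x ^ (2 : ℝ) / x ^ (1 : ℝ)) atTop (𝓝 0) :=
        (isLittleO_log_rpow_rpow_atTop (2 : ℝ) (by norm_num : (0 : ℝ) < 1)).tendsto_div_nhds_zero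
      refine (h6.comp tendsto_natCast_atTop_atTop).congr fun n => ?_
      simp only [Function.comp_apply, Real.rpow_one]
      rw [← Real.rpow_natCast]
      norm_num
    have h3 : Tendsto (fun n : ℕ => Pool.Agent.R528.RM.gold A n ω * Real.log n ^ 2 / n - sing Q n -
        Real.log n ^ 2 / (n : ℝ)) atTop (𝓝 0) := by
      have := hω.sub h2
      rw [sub_zero] at this
      exact this
    refine tendsto_of_tendsto_of_tendsto_of_le_of_le h3 hω (fun n => ?_) fun n => ?_
    · have g := (reps_gold A n ω).2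
      have h0 : 0 ≤ Real.log n ^ 2 / (n : ℝ) := by positivity
      have e1 : Pool.Agent.R528.RM.gold A n ω * Real.log n ^ 2 / n = Pool.Agent.R528.RM.gold A n ω * (Real.log n ^ 2 / n) := by ring
      have e2 : ((reps {k : ℕ | ω ∈ A k} n).ncard : ℝ) * Real.log n ^ 2 / n =
        (reps {k : ℕ | ω ∈ A k} n).ncard * (Real.log n ^ 2 / n) := by ring
      simp only [e1, e2]
      nlinarith
    · have g := (reps_gold A n ω).1
      have h0 : 0 ≤ Real.log n ^ 2 / (n : ℝ) := by positivity
      have e1 : Pool.Agent.R528.RM.gold A n ω * Real.log n ^ 2 / n = Pool.Agent.R528.RM.gold A n ω * (Real.log n ^ 2 / n) := by ring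
      have e2 : ((reps {k : ℕ | ω ∈ A k} n).ncard : ℝ) * Real.log n ^ 2 / n =
        (reps {k : ℕ | ω ∈ A k} n).ncard * (Real.log n ^ 2 / n) := by ring
      have e3 : sing Q n = Pool.Agent.R528.RM.singQ Q n := rfl
      simp only [e1, e2, e3]
      nlinarith
  refine ⟨h1, ⟨hlow, fun n hn => sing_low Q hQ n hn⟩, ?_⟩
  filter_upwards [h1] with ω hω
  set c := ∏ p ∈ Q, low p with hc
  filter_upwards [hω.eventually (lt_mem_nhds (show -(c / 2) < 0 by linarith)), eventually_gt_atTop 2] with n g1 g2 hn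
  have hs := sing_low Q hQ n hn
  have hn2 : (2 : ℝ) < n := by exact_mod_cast g2
  have hL : 0 < Real.log n := Real.log_pos (by linarith)
  have hr : c / 2 * (n / Real.log n ^ 2) ≤ (reps {k : ℕ | ω ∈ A k} n).ncard := by
    have h3 : c / 2 ≤ ((reps {k : ℕ | ω ∈ A k} n).ncard : ℝ) * Real.log n ^ 2 / n := by linarith
    rw [le_div_iff₀ (by linarith)] at h3
    rw [mul_div_assoc', div_le_iff₀ (by positivity)]
    exact h3
  refine ⟨hr, ?_⟩
  have hpos : 0 < (reps {k : ℕ | ω ∈ A k} n).ncard := by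
    have : (0 : ℝ) < (reps {k : ℕ | ω ∈ A k} n).ncard := lt_of_lt_of_le (by positivity) hr
    exact_mod_cast this
  obtain ⟨v, v1, v2, v3, v4⟩ := Set.nonempty_of_ncard_ne_zero hpos.ne'
  refine ⟨v.1, v.2, v1, v2, v3, v4.symm, fun h2 => ⟨?_, ?_⟩⟩
  · by_contra hcon
    have h5 : ω ∈ A v.1 := v1
    rw [hcop v.1 ⟨2, h2, (Nat.not_odd_iff_even.1 hcon).two_dvd⟩] at h5
    exact h5
  · by_contra hcon
    have h5 : ω ∈ A v.2 := v2
    rw [hcop v.2 ⟨2, h2, (Nat.not_odd_iff_even.1 hcon).two_dvd⟩] at h5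
    exact h5
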