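import Pool.Agent.N688.GC.Hit

/-!
# Goldbach summands followed by prescribed gaps: almost all elements of a Bohr set

For a vector `N` of `r` integers (`r = 1`: an even integer) consider the primes `p` for which all `N_j - p` are
primes. Which numbers occur as gaps between such a prime `p` and the NEXT prime, and how often, if the vector may be
changed a little?

Let `w = (r + 1)!` (`w = 2` for `r = 1`). For all `k, s` and `ε > 0` there are `d, H₀` and `ρ, δ, κ > 0` such that for
every `H ≥ H₀` there is `D` such that for all vectors `N ∈ [2, c x]^r` without local obstruction (for `r = 1`: for all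
even integers) with at most `o(x^r)` exceptions, there is a Bohr set `B ⊆ [-H, H]` of rank at most `d` and radius at
least `ρ`, with at least `δ H` elements, such that for all but `ε |B|` of the `b ∈ B`, for all the multiples
`j |b|`, `1 ≤ j ≤ s`, and for a positive proportion `κ` of all `(v, g_1, …, g_k)`:

for at least `x / (log x)^D` primes `p ≤ 2 x` the numbers `p, p + w j |b|, p + w g_1, …, p + w g_k` are `k + 2`
CONSECUTIVE primes and moreover ALL the `r` numbers `N_j + w v - p` are primes.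

In particular (`r = 1`, `k = 0`): for almost all even `N` and almost all `b` of a Bohr set `B_N`, a positive
proportion of the even integers `M ∈ [N, N + 2 H)` have at least `x / (log x)^D` representations `M = p + p'` by
primes for which the prime `p` is followed by the gap `2 j |b|` exactly.

Method. (1) Any `K` shifts contain such a pattern, for almost all vectors
(`MP_967f73_nt.CommonSummands`, starting files; here: uniformly in the `K`-element subsets of `w [0, H)`, with the
local condition of the pattern removed, `Pool.Agent.N688.GC.hit`). (2) `Pool.Agent.N688.FB.main2`: a clique argument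
for patterns which are NOT translation invariant (the vector `N` moves with the pattern). (3) From dense sets with few
poor differences to Bohr sets: `Pool.Agent.N646.AC.returnsZ` (helper646).
-/

set_option autoImplicit false

open Filter Finset Topology

namespace Pool.Agent.Results.MP_61161c_nt.SummandsWithPrescribedGaps

open Classical in
/-- The Bohr set of the integers `|b| ≤ H` with `|exp (2 π i θ b) - 1| ≤ τ` for all `θ ∈ Θ`. -/
noncomputable def bohrSet (Θ : Finset ℝ) (τ : ℝ) (H : ℕ) : Finset ℤ :=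
  (Icc (-(H : ℤ)) H).filter (fun b => ∀ θ ∈ Θ,
    ‖Complex.exp (2 * Real.pi * Complex.I * θ * b) - 1‖ ≤ τ)

/-- No local obstruction: for every prime `l` there is a residue class `n` prime to `l` for which no `N j - n` is
divisible by `l`. For `r = 1` this says that `N 0` is even (`obstruction_iff_even`). -/
def NoObstruction {r : ℕ} (N : Fin r → ℕ) : Prop :=
  ∀ l : ℕ, l.Prime → ∃ n : ℤ, ¬ (l : ℤ) ∣ n ∧ ∀ j, ¬ (l : ℤ) ∣ (N j : ℤ) - n

/-- The primes `p ≤ 2 x` such that all `M j - p` are (positive and) prime and that the primes between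
`p + w (y_0 - y_0) = p` and `p + w (y_k - y_0)` are exactly the numbers `p + w (y_i - y_0)`. -/
def summands {r k : ℕ} (w x : ℕ) (M : Fin r → ℕ) (y : Fin (k + 1) → ℤ) : Set ℕ :=
  {p | p ≤ 2 * x ∧ (∀ j, p < M j ∧ (M j - p).Prime) ∧
    (∀ i, ((p : ℤ) + w * (y i - y 0)).toNat.Prime) ∧
    ∀ z : ℤ, (p : ℤ) ≤ z → z ≤ p + w * (y (Fin.last k) - y 0) → z.toNat.Prime →
      ∃ i, z = p + w * (y i - y 0)}

open Classical in
/-- The number of the vectors `y ∈ [0, H) ^ (k + 2)` with `y_0 < ⋯ < y_(k+1)` and `y_1 - y_0 = b`, for which the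
vector `N + w y_0` has at least `x / (log x)^D` such common summands `p`. -/
noncomputable def extensions {r : ℕ} (k w D x H : ℕ) (N : Fin r → ℕ) (b : ℤ) : ℕ :=
  ((Fintype.piFinset (fun _ : Fin (k + 2) => Ico 0 (H : ℤ))).filter (fun y =>
    y 1 - y 0 = b ∧ StrictMono y ∧
    (x : ℝ) / Real.log x ^ D ≤ ((summands w x (fun j => N j + w * (y 0).toNat) y).ncard : ℝ))).card

open Classical in
/-- There is a Bohr set `B ⊆ [-H, H]` of rank at most `d` and radius at least `ρ`, with at least `δ H` elements,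
all but the proportion `ε` of which satisfy for all `1 ≤ j ≤ s`: the number of the extensions of `j |b|` is at least
`κ H ^ (k + 1)`. -/
def BohrStructure {r : ℕ} (k s : ℕ) (ε : ℝ) (d : ℕ) (ρ δ κ : ℝ) (w D x H : ℕ) (N : Fin r → ℕ) : Prop :=
  ∃ (Θ : Finset ℝ) (τ : ℝ), Θ.card ≤ d ∧ ρ ≤ τ ∧ τ ≤ 1 ∧ δ * H ≤ (bohrSet Θ τ H).card ∧
    (((bohrSet Θ τ H).filter (fun b => ¬ ∀ j : ℕ, 1 ≤ j → j ≤ s →
      κ * (H : ℝ) ^ (k + 1) ≤ extensions k w D x H N (j * |b|))).card : ℝ) ≤
      ε * (bohrSet Θ τ H).card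

theorem obstruction_iff_even (N : Fin 1 → ℕ) : NoObstruction N ↔ Even (N 0) := by
  constructor
  · intro h
    obtain ⟨n, h1, h2⟩ := h 2 Nat.prime_two
    have h3 := h2 0
    rw [Nat.even_iff]
    push_cast at h1 h3
    omega
  · intro h l hl
    rw [Nat.even_iff] at h
    rcases hl.eq_two_or_odd with h2 | h2
    · refine ⟨1, ?_, fun j => ?_⟩
      · rw [h2]
        norm_num
      · rw [Fin.eq_zero j, h2]
        push_cast
        omega
    · have h3 := hl.two_le
      obtain ⟨n, hn⟩ := Pool.Agent.N688.GC.avoid l {0, (N 0 : ℤ)}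
        (lt_of_le_of_lt (card_le_two) (by omega))
      refine ⟨n, ?_, fun j => ?_⟩
      · have := hn 0 (by simp)
        rwa [sub_zero] at this
      · have := hn (N 0) (by simp)
        rw [Fin.eq_zero j, ← neg_sub]
        exact fun hd => this ((dvd_neg).1 hd)

/-- the count of the engine -/
theorem loc_le (k H : ℕ) (P Q : (Fin (k + 2) → ℤ) → Prop) [DecidablePred Q] (b : ℤ)
    (h : ∀ y, y 1 - y 0 = b → P y → Q y) :
    Pool.Agent.N688.FB.loc k H P b ≤
      ((Fintype.piFinset (fun _ : Fin (k + 2) => Ico 0 (H : ℤ))).filter Q).card := by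
  unfold Pool.Agent.N688.FB.loc
  apply card_le_card
  intro y hy
  simp only [Finset.mem_filter] at hy ⊢
  exact ⟨hy.1, h y hy.2.1 hy.2.2⟩

/-- **Goldbach summands followed by prescribed gaps.** With `w = (r + 1)!`: for all `r, k, s`, `ε > 0` there are
`d, H₀` and `ρ, δ, κ > 0` such that for every `H ≥ H₀` there is `D` such that for every `c` all the vectors
`N ∈ [2, c x] ^ r` without local obstruction, with at most `o(x ^ r)` exceptions, have the Bohr structure. -/
theorem result (r k s : ℕ) (ε : ℝ) (hε : 0 < ε) :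
    ∃ (d H₀ : ℕ) (ρ δ κ : ℝ), 0 < ρ ∧ 0 < δ ∧ 0 < κ ∧ ∀ H : ℕ, H₀ ≤ H → ∃ D : ℕ, ∀ c : ℕ,
      Tendsto (fun x : ℕ => (({N : Fin r → ℕ | (∀ j, 2 ≤ N j ∧ N j ≤ c * x) ∧ NoObstruction N ∧
        ¬ BohrStructure k s ε d ρ δ κ (r + 1).factorial D x H N}.ncard : ℕ) : ℝ) / (x : ℝ) ^ r)
        atTop (𝓝 0) := by
  classical
  obtain ⟨K₂, hK⟩ := Pool.Agent.N688.GC.hit r k
  obtain ⟨d, H₀, ρ, δ, κ, hρ, hδ, hκ, hmain⟩ := Pool.Agent.N688.FB.main2 k s K₂ ε hε
  refine ⟨d, H₀, ρ, δ, κ, hρ, hδ, hκ, fun H hH => ?_⟩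
  obtain ⟨D, hD⟩ := hK H
  refine ⟨D, fun c => ?_⟩
  refine squeeze_zero (fun x => by positivity) (fun x => ?_) (hD c)
  apply div_le_div_of_nonneg_right _ (by positivity)
  rw [Nat.cast_le]
  set w : ℕ := (r + 1).factorial with hw
  apply Set.ncard_le_ncard _ (by
    apply (Set.Finite.pi' (fun _ : Fin r => Set.finite_Iic (c * x))).subset
    rintro N ⟨hN, -⟩ j
    exact (hN j).2)
  rintro N ⟨hN1, hN2, hN3⟩
  refine ⟨hN1, hN2, fun hgood => hN3 ?_⟩
  obtain ⟨Θ, τ, h1, h2, h3, h4, h5⟩ := hmain H hH (fun y => StrictMono y ∧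
      Pool.Agent.N688.GC.Many D x (fun j => N j + w * (y 0).toNat) (fun i => w * (y i - y 0))) (by
    intro F hF hFK
    obtain ⟨y, g1, g2, g3⟩ := hgood F hF hFK
    exact ⟨y, g1.injective, g2, g1 (by
      rw [Fin.lt_def]
      simp), g1, g3⟩)
  refine ⟨Θ, τ, h1, h2, h3, h4, le_trans ?_ h5⟩
  rw [Nat.cast_le]
  apply card_le_card
  intro b hb
  rw [mem_filter] at hb ⊢
  refine ⟨hb.1, fun hall => hb.2 fun j hj1 hj2 => (hall j hj1 hj2).trans ?_⟩
  rw [Nat.cast_le]
  unfold extensions
  refine loc_le _ _ _ _ _ ?_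
  rintro y hy2 ⟨hy3, hy4⟩
  refine ⟨hy2, hy3, hy4.trans ?_⟩
  rw [Nat.cast_le]
  apply Set.ncard_le_ncard _ ((Set.finite_Iic (2 * x)).subset fun p hp => hp.1)
  rintro p ⟨hp1, hp2, hp3, hp4⟩
  refine ⟨hp1, hp4, hp2, fun z hz1 hz2 hz3 => ?_⟩
  refine hp3 z ⟨0, ?_⟩ ⟨Fin.last (k + 1), hz2⟩ hz3
  show (p : ℤ) + w * (y 0 - y 0) ≤ z
  rw [sub_self, mul_zero, add_zero]
  exact hz1

end Pool.Agent.Results.MP_61161c_nt.SummandsWithPrescribedGaps
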